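import Mathlib

/-!
# Basic matrix facts: traces, Hilbert-Schmidt norm, orthogonal projections
-/

namespace Pool.Agent.N666.TI
open Matrix
open scoped ComplexOrder MatrixOrder

/-- complex `d × d` matrices -/
abbrev Mat (d : ℕ) := Matrix (Fin d) (Fin d) ℂ

variable {d : ℕ}

/-- real part of the trace -/
noncomputable def tr (X : Mat d) : ℝ := X.trace.re

lemma tr_add (X Y : Mat d) : tr (X + Y) = tr X + tr Y := by simp [tr]
lemma tr_sub (X Y : Mat d) : tr (X - Y) = tr X - tr Y := by simp [tr]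
lemma tr_neg (X : Mat d) : tr (-X) = - tr X := by simp [tr]
lemma tr_zero : tr (0 : Mat d) = 0 := by simp [tr]
lemma tr_sum {ι : Type*} (s : Finset ι) (f : ι → Mat d) :
    tr (∑ i ∈ s, f i) = ∑ i ∈ s, tr (f i) := by simp [tr, Matrix.trace_sum]
lemma tr_smul (c : ℝ) (X : Mat d) : tr ((c : ℂ) • X) = c * tr X := by simp [tr]
lemma tr_comm (X Y : Mat d) : tr (X * Y) = tr (Y * X) := by
  unfold tr; rw [Matrix.trace_mul_comm]
lemma tr_star (X : Mat d) : tr Xᴴ = tr X := by
  unfold tr; rw [Matrix.trace_conjTranspose]; simp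

lemma tr_nonneg {X : Mat d} (hX : X.PosSemidef) : 0 ≤ tr X := by
  have := hX.trace_nonneg
  unfold tr
  exact (Complex.le_def.1 this).1

/-- squared Hilbert-Schmidt norm -/
noncomputable def hs (X : Mat d) : ℝ := tr (Xᴴ * X)

lemma hs_nonneg (X : Mat d) : 0 ≤ hs X :=
  tr_nonneg (posSemidef_conjTranspose_mul_self X)

lemma hs_par (X Y : Mat d) : hs (X + Y) + hs (X - Y) = 2 * hs X + 2 * hs Y := by
  unfold hs
  simp only [conjTranspose_add, conjTranspose_sub, mul_add, add_mul, mul_sub, sub_mul, tr_add,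
    tr_sub]
  ring

lemma hs_add_le (X Y : Mat d) : hs (X + Y) ≤ 2 * hs X + 2 * hs Y := by
  have h1 := hs_par X Y
  have h2 := hs_nonneg (X - Y)
  linarith

lemma hs_zero : hs (0 : Mat d) = 0 := by simp [hs, tr_zero]

lemma hs_star (X : Mat d) : hs Xᴴ = hs X := by
  unfold hs
  rw [conjTranspose_conjTranspose, tr_comm]

/-- orthogonal projections -/
structure IsPr (P : Mat d) : Prop where
  herm : Pᴴ = P
  idem : P * P = P

lemma IsPr.compl {P : Mat d} (h : IsPr P) : IsPr (1 - P) := by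
  refine ⟨by simp [h.herm], ?_⟩
  simp [mul_sub, sub_mul, h.idem]

lemma IsPr.zero : IsPr (0 : Mat d) := ⟨by simp, by simp⟩

lemma IsPr.posSemidef {P : Mat d} (h : IsPr P) : P.PosSemidef := by
  have := posSemidef_conjTranspose_mul_self P
  rwa [h.herm, h.idem] at this

lemma hs_mul_pr (X : Mat d) {P : Mat d} (h : IsPr P) : hs (X * P) = tr (Xᴴ * X * P) := by
  unfold hs
  rw [conjTranspose_mul, h.herm, mul_assoc, tr_comm, mul_assoc, mul_assoc, h.idem, mul_assoc]

lemma hs_pr_mul (X : Mat d) {P : Mat d} (h : IsPr P) : hs (P * X) = tr (X * Xᴴ * P) := by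
  rw [← hs_star, conjTranspose_mul, h.herm, hs_mul_pr _ h, conjTranspose_conjTranspose]

lemma tr_mul_pr_nonneg {X : Mat d} (hX : X.PosSemidef) {P : Mat d} (h : IsPr P) :
    0 ≤ tr (X * P) := by
  have h1 := tr_nonneg (hX.conjTranspose_mul_mul_same P)
  rwa [tr_comm, h.herm, ← mul_assoc, h.idem, tr_comm] at h1

lemma hs_mul_pr_le (X : Mat d) {P : Mat d} (h : IsPr P) : hs (X * P) ≤ hs X := by
  rw [hs_mul_pr X h]
  have h1 := tr_mul_pr_nonneg (posSemidef_conjTranspose_mul_self X) h.compl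
  rw [mul_sub, mul_one, tr_sub] at h1
  unfold hs
  linarith

lemma hs_pr_mul_le (X : Mat d) {P : Mat d} (h : IsPr P) : hs (P * X) ≤ hs X := by
  rw [← hs_star, conjTranspose_mul, h.herm, ← hs_star X]
  exact hs_mul_pr_le _ h

lemma tr_mul_eq_hs {P Q : Mat d} (hP : IsPr P) (hQ : IsPr Q) : tr (P * Q) = hs (P * Q) := by
  rw [hs_mul_pr P hQ, hP.herm, hP.idem]

lemma tr_pr_eq_hs {P : Mat d} (hP : IsPr P) : tr P = hs P := by
  unfold hs; rw [hP.herm, hP.idem]

lemma tr_mul_nonneg {P Q : Mat d} (hP : IsPr P) (hQ : IsPr Q) : 0 ≤ tr (P * Q) := by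
  rw [tr_mul_eq_hs hP hQ]; exact hs_nonneg _

lemma IsPr.sum {ι : Type*} (s : Finset ι) (P : ι → Mat d) (h : ∀ i ∈ s, IsPr (P i))
    (ho : ∀ i ∈ s, ∀ j ∈ s, i ≠ j → P i * P j = 0) : IsPr (∑ i ∈ s, P i) := by
  classical
  refine ⟨?_, ?_⟩
  · rw [conjTranspose_sum]
    exact Finset.sum_congr rfl fun i hi => (h i hi).herm
  · rw [Finset.sum_mul_sum]
    refine Finset.sum_congr rfl fun i hi => ?_
    rw [Finset.sum_eq_single_of_mem i hi]
    · exact (h i hi).idem
    · intro j hj hji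
      exact ho i hi j hj (Ne.symm hji)

lemma sum_hs_mul_le {ι : Type*} (s : Finset ι) (P : ι → Mat d) (h : ∀ i ∈ s, IsPr (P i))
    (ho : ∀ i ∈ s, ∀ j ∈ s, i ≠ j → P i * P j = 0) (X : Mat d) :
    ∑ i ∈ s, hs (X * P i) ≤ hs X := by
  have h1 : ∑ i ∈ s, hs (X * P i) = tr (Xᴴ * X * ∑ i ∈ s, P i) := by
    rw [Finset.mul_sum, tr_sum]
    exact Finset.sum_congr rfl fun i hi => hs_mul_pr X (h i hi)
  rw [h1, ← hs_mul_pr X (IsPr.sum s P h ho)]
  exact hs_mul_pr_le X (IsPr.sum s P h ho)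

lemma sum_hs_pr_mul_le {ι : Type*} (s : Finset ι) (P : ι → Mat d) (h : ∀ i ∈ s, IsPr (P i))
    (ho : ∀ i ∈ s, ∀ j ∈ s, i ≠ j → P i * P j = 0) (X : Mat d) :
    ∑ i ∈ s, hs (P i * X) ≤ hs X := by
  have h1 := sum_hs_mul_le s P h ho Xᴴ
  rw [hs_star] at h1
  refine le_trans (le_of_eq ?_) h1
  refine Finset.sum_congr rfl fun i hi => ?_
  rw [← hs_star, conjTranspose_mul, (h i hi).herm]

/-! ### spectral calculus -/

/-- `U diag(f) U*` -/
noncomputable def dg (U : Mat d) (f : Fin d → ℝ) : Mat d :=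
  U * diagonal (fun i => (f i : ℂ)) * Uᴴ

lemma dg_mul {U : Mat d} (hU : Uᴴ * U = 1) (f g : Fin d → ℝ) :
    dg U f * dg U g = dg U (fun i => f i * g i) := by
  unfold dg
  have : U * diagonal (fun i => (f i : ℂ)) * Uᴴ * (U * diagonal (fun i => (g i : ℂ)) * Uᴴ)
      = U * diagonal (fun i => (f i : ℂ)) * (Uᴴ * U) * diagonal (fun i => (g i : ℂ)) * Uᴴ := by
    simp only [mul_assoc]
  rw [this, hU, mul_one, mul_assoc U, diagonal_mul_diagonal]
  simp

lemma dg_herm (U : Mat d) (f : Fin d → ℝ) : (dg U f)ᴴ = dg U f := by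
  unfold dg
  have h : star (fun i => (f i : ℂ)) = fun i => (f i : ℂ) := by
    ext i; simp
  rw [conjTranspose_mul, conjTranspose_mul, conjTranspose_conjTranspose, diagonal_conjTranspose,
    h, mul_assoc]

lemma dg_add (U : Mat d) (f g : Fin d → ℝ) : dg U f + dg U g = dg U (fun i => f i + g i) := by
  unfold dg
  rw [← add_mul, ← mul_add, diagonal_add]
  simp

lemma dg_sub (U : Mat d) (f g : Fin d → ℝ) : dg U f - dg U g = dg U (fun i => f i - g i) := by
  unfold dg
  rw [← sub_mul, ← mul_sub, diagonal_sub]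
  simp

lemma dg_smul (U : Mat d) (c : ℝ) (f : Fin d → ℝ) :
    (c : ℂ) • dg U f = dg U (fun i => c * f i) := by
  unfold dg
  have : diagonal (fun i => ((c * f i : ℝ) : ℂ)) = (c : ℂ) • diagonal (fun i => (f i : ℂ)) := by
    rw [← diagonal_smul]
    congr 1
    ext i
    simp
  rw [this]
  simp

lemma dg_zero (U : Mat d) : dg U (fun _ => 0) = 0 := by
  unfold dg; simp

lemma dg_one {U : Mat d} (hU : U * Uᴴ = 1) : dg U (fun _ => 1) = 1 := by
  unfold dg; simp [hU]

lemma dg_sum {ι : Type*} (s : Finset ι) (U : Mat d) (f : ι → Fin d → ℝ) :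
    ∑ k ∈ s, dg U (f k) = dg U (fun i => ∑ k ∈ s, f k i) := by
  classical
  induction s using Finset.induction_on with
  | empty => simp [dg_zero]
  | insert a s ha ih =>
    rw [Finset.sum_insert ha, ih, dg_add]
    congr 1
    ext i
    rw [Finset.sum_insert ha]

lemma tr_dg {U : Mat d} (hU : Uᴴ * U = 1) (f : Fin d → ℝ) : tr (dg U f) = ∑ i, f i := by
  unfold dg
  rw [tr_comm, ← mul_assoc, hU, one_mul]
  simp [tr, Matrix.trace]

lemma dg_posSemidef (U : Mat d) {f : Fin d → ℝ} (hf : ∀ i, 0 ≤ f i) : (dg U f).PosSemidef := by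
  unfold dg
  have h1 : (diagonal (fun i => (f i : ℂ)) : Mat d).PosSemidef := by
    rw [posSemidef_diagonal_iff]
    intro i
    exact_mod_cast hf i
  have := h1.conjTranspose_mul_mul_same Uᴴ
  rwa [conjTranspose_conjTranspose] at this

lemma dg_isPr {U : Mat d} (hU : Uᴴ * U = 1) {f : Fin d → ℝ} (hf : ∀ i, f i * f i = f i) :
    IsPr (dg U f) := by
  refine ⟨dg_herm U f, ?_⟩
  rw [dg_mul hU]
  congr 1
  ext i
  exact hf i

lemma exists_dg {A : Mat d} (hA : A.IsHermitian) :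
    ∃ U : Mat d, Uᴴ * U = 1 ∧ U * Uᴴ = 1 ∧ A = dg U hA.eigenvalues := by
  refine ⟨(hA.eigenvectorUnitary : Mat d), ?_, ?_, ?_⟩
  · exact Unitary.coe_star_mul_self hA.eigenvectorUnitary
  · exact Unitary.coe_mul_star_self hA.eigenvectorUnitary
  · conv_lhs => rw [hA.spectral_theorem]
    rw [Unitary.conjStarAlgAut_apply]
    rfl

/-- range projection of a matrix -/
lemma exists_range_pr (X : Mat d) :
    ∃ G : Mat d, IsPr G ∧ G * X = X ∧ (∀ Y : Mat d, Y * X = 0 → Y * G = 0) ∧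
      tr G = (X.rank : ℝ) := by
  classical
  have hH : (X * Xᴴ).IsHermitian := isHermitian_mul_conjTranspose_self X
  obtain ⟨U, hU1, hU2, hA⟩ := exists_dg hH
  set a : Fin d → ℝ := hH.eigenvalues with ha
  set χ : Fin d → ℝ := fun i => if a i = 0 then 0 else 1 with hχ
  have hG : IsPr (dg U χ) := dg_isPr hU1 (by intro i; simp only [hχ]; split_ifs <;> simp)
  refine ⟨dg U χ, hG, ?_, ?_, ?_⟩
  · have h1 : (1 - dg U χ) * X * ((1 - dg U χ) * X)ᴴ = 0 := by
      rw [conjTranspose_mul, hG.compl.herm]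
      have : (1 - dg U χ) * X * (Xᴴ * (1 - dg U χ)) = (1 - dg U χ) * (X * Xᴴ) * (1 - dg U χ) := by
        simp only [mul_assoc]
      rw [this, hA]
      rw [← dg_one hU2, dg_sub, dg_mul hU1, dg_mul hU1, ← dg_zero U]
      congr 1
      ext i
      simp only [hχ]
      split_ifs with h
      · rw [h]; ring
      · ring
    have h2 := Matrix.self_mul_conjTranspose_eq_zero.1 h1
    rw [sub_mul, one_mul, sub_eq_zero] at h2
    exact h2.symm
  · intro Y hY
    have h1 : Y * dg U a = 0 := by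
      rw [← hA, ← mul_assoc, hY, zero_mul]
    have h2 : dg U χ = dg U a * dg U (fun i => (a i)⁻¹) := by
      rw [dg_mul hU1]
      congr 1
      ext i
      simp only [hχ]
      split_ifs with h
      · rw [h]; simp
      · rw [mul_inv_cancel₀ h]
    rw [h2, ← mul_assoc, h1, zero_mul]
  · rw [tr_dg hU1, ← rank_self_mul_conjTranspose X, hH.rank_eq_card_non_zero_eigs,
      Fintype.card_subtype]
    rw [Finset.card_filter]
    push_cast
    refine Finset.sum_congr rfl fun i _ => ?_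
    simp only [hχ, ha]
    split_ifs <;> simp_all

lemma tr_pr_eq_rank {P : Mat d} (hP : IsPr P) : tr P = (P.rank : ℝ) := by
  obtain ⟨G, hG, h1, h2, h3⟩ := exists_range_pr P
  have h4 : (1 - P) * G = 0 := h2 _ (by rw [sub_mul, one_mul, hP.idem, sub_self])
  have h5 : G = P * G := by rwa [sub_mul, one_mul, sub_eq_zero] at h4
  have h6 : G = P := by
    have := congrArg conjTranspose h5
    rw [conjTranspose_mul, hG.herm, hP.herm, h1] at this
    exact this
  rw [← h3, h6]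

/-- Gram-Schmidt step for projections. -/
lemma exists_ext_pr {Z P : Mat d} (hZ : IsPr Z) (hP : IsPr P) :
    ∃ G : Mat d, IsPr G ∧ Z * G = 0 ∧ (Z + G) * P = P ∧ hs (G - P) ≤ 2 * tr (Z * P) := by
  obtain ⟨G, hG, h1, h2, h3⟩ := exists_range_pr ((1 - Z) * P)
  have hZG : Z * G = 0 := h2 _ (by
    rw [← mul_assoc, mul_sub, mul_one, hZ.idem, sub_self, zero_mul])
  have hGZ : G * Z = 0 := by
    have := congrArg conjTranspose hZG
    rwa [conjTranspose_mul, hG.herm, hZ.herm, conjTranspose_zero] at this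
  have hGP : G * P = (1 - Z) * P := by
    rw [← mul_assoc, mul_sub, mul_one, hGZ, sub_zero] at h1
    exact h1
  refine ⟨G, hG, hZG, ?_, ?_⟩
  · rw [add_mul, hGP, sub_mul, one_mul]; abel
  · have hr : tr G ≤ tr P := by
      rw [h3, tr_pr_eq_rank hP]
      exact_mod_cast rank_mul_le_right _ _
    unfold hs
    rw [conjTranspose_sub, hG.herm, hP.herm, mul_sub, sub_mul, sub_mul, hG.idem, hP.idem]
    simp only [tr_sub]
    rw [tr_comm P G, hGP, sub_mul, one_mul, tr_sub]
    linarith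

end Pool.Agent.N666.TI
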