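import Pool.Agent.N666.TI.Basic

/-!
# Nussbaum-Szkola type lower bound for two positive operators, and trace norms
-/

namespace Pool.Agent.N666.TI
open Matrix
open scoped ComplexOrder MatrixOrder

variable {d : ℕ}

/-- The trace norm `‖X‖₁ = Tr √(X* X)`. -/
noncomputable def traceNorm (X : Mat d) : ℝ := (CFC.sqrt (Xᴴ * X)).trace.re

/-- `‖X‖₁ = Tr X(2T-1)` for Hermitian `X` and some projection `T`. -/
lemma exists_traceNorm_eq {X : Mat d} (hX : X.IsHermitian) :
    ∃ T : Mat d, IsPr T ∧ traceNorm X = tr (X * (T - (1 - T))) := by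
  classical
  obtain ⟨U, hU1, hU2, hA⟩ := exists_dg hX
  set a := hX.eigenvalues with ha
  set χ : Fin d → ℝ := fun i => if 0 ≤ a i then 1 else 0 with hχ
  refine ⟨dg U χ, dg_isPr hU1 (by intro i; simp only [hχ]; split_ifs <;> simp), ?_⟩
  have h1 : X * (dg U χ - (1 - dg U χ)) = dg U (fun i => |a i|) := by
    rw [hA, ← dg_one hU2, dg_sub, dg_sub, dg_mul hU1]
    congr 1
    ext i
    simp only [hχ]
    split_ifs with h
    · rw [abs_of_nonneg h]; ring
    · rw [abs_of_neg (lt_of_not_ge h)]; ring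
  have h2 : CFC.sqrt (Xᴴ * X) = dg U (fun i => |a i|) := by
    apply CFC.sqrt_unique
    · rw [hX.eq, dg_mul hU1]
      conv_rhs => rw [hA, dg_mul hU1]
      congr 1
      ext i
      exact abs_mul_abs_self _
    · exact (dg_posSemidef U (fun i => abs_nonneg (a i))).nonneg
  rw [h1]
  unfold traceNorm tr
  rw [h2]

lemma ns_bound {S T : Finset ℕ} {P : ℕ → Mat d} (hP : ∀ k, IsPr (P k))
    (hS : ∀ i ∈ S, ∀ j ∈ S, i ≠ j → P i * P j = 0)
    (hT : ∀ i ∈ T, ∀ j ∈ T, i ≠ j → P i * P j = 0)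
    {w : ℕ → ℝ} (hw : ∀ k, 0 ≤ w k) {A B : Mat d} (hA : A.IsHermitian) (hB : B.IsHermitian)
    (hAS : (A - ∑ k ∈ S, (w k : ℂ) • P k).PosSemidef)
    (hBT : (B - ∑ k ∈ T, (w k : ℂ) • P k).PosSemidef) :
    ∑ s ∈ S, ∑ t ∈ T, min (w s) (w t) * tr (P s * P t) ≤
      tr (A + B) - traceNorm (A - B) := by
  obtain ⟨Q, hQ, hQ2⟩ := exists_traceNorm_eq (X := A - B) (by
    unfold IsHermitian; rw [conjTranspose_sub, hA.eq, hB.eq])
  have e0 : tr (A + B) - traceNorm (A - B) = 2 * tr (A * (1 - Q)) + 2 * tr (B * Q) := by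
    rw [hQ2]
    simp only [mul_sub, sub_mul, mul_one, tr_sub, tr_add]
    ring
  -- lower bounds
  have a1 : ∑ k ∈ S, w k * hs (P k * (1 - Q)) ≤ tr (A * (1 - Q)) := by
    have h1 := tr_mul_pr_nonneg hAS hQ.compl
    rw [sub_mul, tr_sub, Finset.sum_mul, tr_sum] at h1
    have h2 : ∑ k ∈ S, w k * hs (P k * (1 - Q)) =
        ∑ k ∈ S, tr ((w k : ℂ) • P k * (1 - Q)) := by
      refine Finset.sum_congr rfl fun k _ => ?_
      rw [smul_mul_assoc, tr_smul, tr_mul_eq_hs (hP k) hQ.compl]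
    linarith
  have b1 : ∑ k ∈ T, w k * hs (Q * P k) ≤ tr (B * Q) := by
    have h1 := tr_mul_pr_nonneg hBT hQ
    rw [sub_mul, tr_sub, Finset.sum_mul, tr_sum] at h1
    have h2 : ∑ k ∈ T, w k * hs (Q * P k) =
        ∑ k ∈ T, tr ((w k : ℂ) • P k * Q) := by
      refine Finset.sum_congr rfl fun k _ => ?_
      rw [smul_mul_assoc, tr_smul, tr_comm, tr_mul_eq_hs hQ (hP k)]
    linarith
  have a2 : ∑ s ∈ S, ∑ t ∈ T, w s * hs (P s * (1 - Q) * P t) ≤ tr (A * (1 - Q)) := by
    refine le_trans (Finset.sum_le_sum fun s _ => ?_) a1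
    rw [← Finset.mul_sum]
    exact mul_le_mul_of_nonneg_left (sum_hs_mul_le T P (fun i _ => hP i) hT _) (hw s)
  have b2 : ∑ s ∈ S, ∑ t ∈ T, w t * hs (P s * Q * P t) ≤ tr (B * Q) := by
    rw [Finset.sum_comm]
    refine le_trans (Finset.sum_le_sum fun t _ => ?_) b1
    rw [← Finset.mul_sum]
    refine mul_le_mul_of_nonneg_left ?_ (hw t)
    have := sum_hs_pr_mul_le S P (fun i _ => hP i) hS (Q * P t)
    simpa only [mul_assoc] using this
  rw [e0]
  have c1 : ∑ s ∈ S, ∑ t ∈ T, min (w s) (w t) * tr (P s * P t) ≤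
      ∑ s ∈ S, ∑ t ∈ T, (2 * (w s * hs (P s * (1 - Q) * P t)) +
        2 * (w t * hs (P s * Q * P t))) := by
    refine Finset.sum_le_sum fun s _ => Finset.sum_le_sum fun t _ => ?_
    have h1 : P s * P t = P s * (1 - Q) * P t + P s * Q * P t := by
      rw [← add_mul, ← mul_add]; simp
    rw [tr_mul_eq_hs (hP s) (hP t)]
    have h2 := hs_add_le (P s * (1 - Q) * P t) (P s * Q * P t)
    rw [← h1] at h2
    have h3 := hs_nonneg (P s * (1 - Q) * P t)
    have h4 := hs_nonneg (P s * Q * P t)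
    have h5 : min (w s) (w t) * hs (P s * P t) ≤ min (w s) (w t) *
        (2 * hs (P s * (1 - Q) * P t) + 2 * hs (P s * Q * P t)) :=
      mul_le_mul_of_nonneg_left h2 (le_min (hw s) (hw t))
    have h6 : min (w s) (w t) * hs (P s * (1 - Q) * P t) ≤ w s * hs (P s * (1 - Q) * P t) :=
      mul_le_mul_of_nonneg_right (min_le_left _ _) h3
    have h7 : min (w s) (w t) * hs (P s * Q * P t) ≤ w t * hs (P s * Q * P t) :=
      mul_le_mul_of_nonneg_right (min_le_right _ _) h4
    linarith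
  refine c1.trans ?_
  simp only [Finset.sum_add_distrib, ← Finset.mul_sum] at a2 b2 ⊢
  linarith

/-- Lower bound of `Tr √(∑ A_j²)` by measurements. -/
lemma sqrt_lower {n : ℕ} (A W : Fin n → Mat d) (hA : ∀ j, (A j).PosSemidef)
    (hW : ∀ j, IsPr (W j)) (hWo : ∀ i j, i ≠ j → W i * W j = 0) :
    ∑ j, tr (A j * W j) ≤ (CFC.sqrt (∑ j, A j ^ 2)).trace.re := by
  classical
  set S := CFC.sqrt (∑ j, A j ^ 2) with hS
  have hpos : (0 : Mat d) ≤ ∑ j, A j ^ 2 := by
    apply Finset.sum_nonneg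
    intro j _
    have := (posSemidef_conjTranspose_mul_self (A j)).nonneg
    rwa [(hA j).isHermitian.eq, ← sq] at this
  have hSpos : S.PosSemidef := by
    rw [← Matrix.nonneg_iff_posSemidef]
    exact CFC.sqrt_nonneg _
  have hSS : S * S = ∑ j, A j ^ 2 := CFC.sqrt_mul_sqrt_self _ hpos
  obtain ⟨U, hU1, hU2, hSU⟩ := exists_dg hSpos.isHermitian
  set s := hSpos.isHermitian.eigenvalues with hs_def
  have hs0 : ∀ i, 0 ≤ s i := hSpos.eigenvalues_nonneg
  set Y : Mat d := ∑ j, W j * A j with hY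
  have hYY : Yᴴ * Y = ∑ j, A j * W j * A j := by
    rw [hY, conjTranspose_sum, Finset.sum_mul_sum]
    refine Finset.sum_congr rfl fun i _ => ?_
    rw [Finset.sum_eq_single_of_mem i (Finset.mem_univ i)]
    · rw [conjTranspose_mul, (hW i).herm, (hA i).isHermitian.eq]
      simp only [mul_assoc]
      rw [← mul_assoc (W i) (W i), (hW i).idem]
    · intro j _ hji
      rw [conjTranspose_mul, (hW i).herm, (hA i).isHermitian.eq]
      have : A i * W i * (W j * A j) = A i * (W i * W j) * A j := by simp only [mul_assoc]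
      rw [this, hWo i j (Ne.symm hji)]
      simp
  have hle : (S * S - Yᴴ * Y).PosSemidef := by
    rw [hSS, hYY, ← Finset.sum_sub_distrib]
    apply posSemidef_sum
    intro j _
    have h1 := (hW j).compl.posSemidef.conjTranspose_mul_mul_same (A j)
    rw [(hA j).isHermitian.eq, mul_sub, sub_mul, mul_one, ← sq] at h1
    exact h1
  have e1 : ∑ j, tr (A j * W j) = tr Y := by
    rw [hY, tr_sum]
    exact Finset.sum_congr rfl fun j _ => tr_comm _ _
  -- pass to the eigenbasis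
  set Y' : Mat d := Uᴴ * Y * U with hY'
  have e2 : tr Y = tr Y' := by
    rw [hY', tr_comm, ← mul_assoc, hU2, one_mul]
  have e3 : (diagonal (fun i => ((s i : ℂ))) * diagonal (fun i => ((s i : ℂ))) -
      Y'ᴴ * Y').PosSemidef := by
    have h1 := hle.conjTranspose_mul_mul_same U
    have h2 : Uᴴ * (S * S - Yᴴ * Y) * U =
        diagonal (fun i => ((s i : ℂ))) * diagonal (fun i => ((s i : ℂ))) - Y'ᴴ * Y' := by
      rw [mul_sub, sub_mul]
      congr 1
      · rw [hSU]
        unfold dg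
        have : Uᴴ * (U * diagonal (fun i => ((s i : ℂ))) * Uᴴ *
            (U * diagonal (fun i => ((s i : ℂ))) * Uᴴ)) * U =
            (Uᴴ * U) * diagonal (fun i => ((s i : ℂ))) * (Uᴴ * U) *
              diagonal (fun i => ((s i : ℂ))) * (Uᴴ * U) := by
          simp only [mul_assoc]
        rw [this, hU1]
        simp
      · rw [hY', conjTranspose_mul, conjTranspose_mul, conjTranspose_conjTranspose]
        have : Uᴴ * (Yᴴ * U) * (Uᴴ * Y * U) = Uᴴ * Yᴴ * (U * Uᴴ) * Y * U := by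
          simp only [mul_assoc]
        rw [this, hU2, mul_one]
        simp only [mul_assoc]
    rwa [h2] at h1
  have e4 : ∀ i, (Y' i i).re ≤ s i := by
    intro i
    have h1 := e3.diag_nonneg (i := i)
    have h2 : (diagonal (fun i => ((s i : ℂ))) * diagonal (fun i => ((s i : ℂ))) -
      Y'ᴴ * Y') i i = (s i : ℂ) * s i - ∑ k, (starRingEnd ℂ) (Y' k i) * Y' k i := by
      rw [Matrix.sub_apply, diagonal_mul_diagonal, diagonal_apply_eq, mul_apply]
      rfl
    rw [h2] at h1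
    have h3 := (Complex.le_def.1 h1).1
    simp only [Complex.zero_re, Complex.sub_re, Complex.re_sum] at h3
    have h4 : ∀ k, ((starRingEnd ℂ) (Y' k i) * Y' k i).re = ‖Y' k i‖ ^ 2 := by
      intro k
      rw [mul_comm, Complex.mul_conj, Complex.normSq_eq_norm_sq, Complex.ofReal_re]
    simp only [h4] at h3
    have h5 : ‖Y' i i‖ ^ 2 ≤ ∑ k, ‖Y' k i‖ ^ 2 :=
      Finset.single_le_sum (f := fun k => ‖Y' k i‖ ^ 2) (fun k _ => sq_nonneg _)
        (Finset.mem_univ i)
    have h6 : ((s i : ℂ) * s i).re = s i ^ 2 := by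
      rw [← Complex.ofReal_mul, Complex.ofReal_re, sq]
    rw [h6] at h3
    have h7 : ‖Y' i i‖ ≤ s i := by
      apply le_of_sq_le_sq _ (hs0 i)
      linarith
    exact (Complex.re_le_norm _).trans h7
  have e5 : tr Y' ≤ ∑ i, s i := by
    unfold tr Matrix.trace
    rw [Complex.re_sum]
    exact Finset.sum_le_sum fun i _ => e4 i
  have e6 : S.trace.re = ∑ i, s i := by
    have := tr_dg hU1 s
    rw [← hSU] at this
    exact this
  rw [e1, e2, e6]
  exact e5

end Pool.Agent.N666.TI
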