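import Pool.Agent.N666.TI.Step
import Pool.Agent.N666.TI.NS

/-!
# The multivariate trace inequality
-/

namespace Pool.Agent.N666.TI
open Matrix
open scoped ComplexOrder MatrixOrder

variable {d n : ℕ}

/-- `L(A₁,…,A_n) = Tr √(∑ A_j²) - ∑ Tr A_j` -/
noncomputable def LL (A : Fin n → Mat d) : ℝ :=
  (CFC.sqrt (∑ j, A j ^ 2)).trace.re - ∑ j, (A j).trace.re

/-- `R(A₁,…,A_n) = ∑_{j<k} (‖A_j - A_k‖₁ - Tr(A_j + A_k))` -/
noncomputable def RR (A : Fin n → Mat d) : ℝ :=
  ∑ j, ∑ k ∈ Finset.Ioi j, (traceNorm (A j - A k) - (A j + A k).trace.re)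

section comb
variable (P : ℕ → Mat d) (lab : ℕ → Fin n) (w : ℕ → ℝ)

/-- weight times overlap of two blocks -/
noncomputable def FF (P : ℕ → Mat d) (w : ℕ → ℝ) (s t : ℕ) : ℝ := min (w s) (w t) * tr (P s * P t)

lemma FF_comm (s t : ℕ) : FF P w s t = FF P w t s := by
  unfold FF; rw [min_comm, tr_comm]

lemma w_mul_ov (hw : Antitone w) (k : ℕ) :
    w k * ov P lab k = ∑ i ∈ Finset.range k, if lab i = lab k then 0 else FF P w i k := by
  unfold ov EE
  have h1 : ∀ l : Fin n, (if l = lab k then (0:ℝ) else
      tr (P k * ∑ i ∈ Finset.range k with lab i = l, P i)) =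
      ∑ i ∈ Finset.range k with lab i = l, (if lab i = lab k then 0 else tr (P k * P i)) := by
    intro l
    split_ifs with h
    · symm
      apply Finset.sum_eq_zero
      intro i hi
      rw [Finset.mem_filter] at hi
      rw [if_pos (hi.2.trans h)]
    · rw [Finset.mul_sum, tr_sum]
      refine Finset.sum_congr rfl fun i hi => ?_
      rw [Finset.mem_filter] at hi
      rw [if_neg (by rw [hi.2]; exact h)]
  simp_rw [h1]
  rw [Finset.sum_fiberwise, Finset.mul_sum]
  refine Finset.sum_congr rfl fun i hi => ?_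
  rw [Finset.mem_range] at hi
  split_ifs
  · simp
  · unfold FF
    rw [min_eq_right (hw hi.le), tr_comm]

lemma sum_range_lt (N k : ℕ) (hk : k < N) (f : ℕ → ℝ) :
    ∑ i ∈ Finset.range k, f i = ∑ i ∈ Finset.range N, if i < k then f i else 0 := by
  rw [← Finset.sum_filter]
  congr 1
  ext i
  simp only [Finset.mem_range, Finset.mem_filter]
  omega

lemma sum_ov (hw : Antitone w) (N : ℕ) :
    ∑ k ∈ Finset.range N, w k * ov P lab k =
      ∑ s ∈ Finset.range N, ∑ t ∈ Finset.range N, if lab s < lab t then FF P w s t else 0 := by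
  have h1 : ∑ k ∈ Finset.range N, w k * ov P lab k =
      ∑ k ∈ Finset.range N, ∑ i ∈ Finset.range N,
        ((if i < k ∧ lab i < lab k then FF P w i k else 0) +
          (if i < k ∧ lab k < lab i then FF P w i k else 0)) := by
    refine Finset.sum_congr rfl fun k hk => ?_
    rw [Finset.mem_range] at hk
    rw [w_mul_ov P lab w hw k, sum_range_lt N k hk]
    refine Finset.sum_congr rfl fun i _ => ?_
    by_cases hik : i < k
    · rcases lt_trichotomy (lab i) (lab k) with h | h | h
      · simp [hik, h, h.ne, not_lt_of_gt h]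
      · simp [hik, h]
      · simp [hik, h, h.ne', not_lt_of_gt h]
    · simp [hik]
  rw [h1]
  simp only [Finset.sum_add_distrib]
  rw [Finset.sum_comm (f := fun k i => if i < k ∧ lab i < lab k then FF P w i k else 0),
    ← Finset.sum_add_distrib]
  refine Finset.sum_congr rfl fun s _ => ?_
  rw [← Finset.sum_add_distrib]
  refine Finset.sum_congr rfl fun t _ => ?_
  rcases lt_trichotomy s t with h | h | h
  · simp [h, not_lt_of_gt h]
  · simp [h]
  · simp [h, not_lt_of_gt h, FF_comm P w t s]

lemma sum_pairs (N : ℕ) :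
    ∑ j, ∑ l ∈ Finset.Ioi j, ∑ s ∈ Finset.range N with lab s = j,
      ∑ t ∈ Finset.range N with lab t = l, FF P w s t =
      ∑ s ∈ Finset.range N, ∑ t ∈ Finset.range N, if lab s < lab t then FF P w s t else 0 := by
  have h1 : ∀ j : Fin n, ∑ l ∈ Finset.Ioi j, ∑ s ∈ Finset.range N with lab s = j,
      ∑ t ∈ Finset.range N with lab t = l, FF P w s t =
      ∑ s ∈ Finset.range N with lab s = j, ∑ t ∈ Finset.range N,
        if lab s < lab t then FF P w s t else 0 := by
    intro j
    rw [Finset.sum_comm]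
    refine Finset.sum_congr rfl fun s hs => ?_
    rw [Finset.mem_filter] at hs
    have h2 : ∀ l : Fin n, ∑ t ∈ Finset.range N with lab t = l,
        (if lab s < lab t then FF P w s t else 0) =
        if l ∈ Finset.Ioi j then ∑ t ∈ Finset.range N with lab t = l, FF P w s t else 0 := by
      intro l
      split_ifs with hl
      · refine Finset.sum_congr rfl fun t ht => ?_
        rw [Finset.mem_filter] at ht
        rw [Finset.mem_Ioi] at hl
        rw [if_pos (by rw [hs.2, ht.2]; exact hl)]
      · apply Finset.sum_eq_zero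
        intro t ht
        rw [Finset.mem_filter] at ht
        rw [Finset.mem_Ioi] at hl
        rw [if_neg (by rw [hs.2, ht.2]; exact hl)]
    rw [← Finset.sum_fiberwise (Finset.range N) lab
      (fun t => if lab s < lab t then FF P w s t else 0)]
    simp_rw [h2]
    rw [← Finset.sum_filter]
    congr 1
    ext l
    simp
  simp_rw [h1]
  exact Finset.sum_fiberwise _ _ _

end comb

theorem main_bound (n : ℕ) (d : ℕ) (A : Fin n → Mat d) (hA : ∀ j, (A j).PosSemidef) :
    (4 * 20 ^ n) * RR A ≤ LL A := by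
  classical
  rcases Nat.eq_zero_or_pos n with hn | hn
  · subst hn
    simp [RR, LL]
  have : NeZero n := ⟨hn.ne'⟩
  have hspec : ∀ j, ∃ (U : Mat d) (a : Fin d → ℝ), Uᴴ * U = 1 ∧ U * Uᴴ = 1 ∧ A j = dg U a ∧
      ∀ i, 0 ≤ a i := by
    intro j
    obtain ⟨U, h1, h2, h3⟩ := exists_dg (hA j).isHermitian
    exact ⟨U, _, h1, h2, h3, (hA j).eigenvalues_nonneg⟩
  choose U a hU1 hU2 hAU ha using hspec
  set w0 : ℝ := 1 + ∑ j, ∑ i, a j i with hw0
  have hsum0 : ∀ j, 0 ≤ ∑ i, a j i := fun j => Finset.sum_nonneg fun i _ => ha j i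
  have hw0pos : 0 < w0 := by
    have := Finset.sum_nonneg fun j (_ : j ∈ Finset.univ) => hsum0 j
    rw [hw0]; linarith
  have haw0 : ∀ j i, a j i ≤ w0 := by
    intro j i
    have h1 : a j i ≤ ∑ i, a j i :=
      Finset.single_le_sum (f := fun i => a j i) (fun i _ => ha j i) (Finset.mem_univ i)
    have h2 : ∑ i, a j i ≤ ∑ j, ∑ i, a j i :=
      Finset.single_le_sum (f := fun j => ∑ i, a j i) (fun j _ => hsum0 j) (Finset.mem_univ j)
    rw [hw0]; linarith
  set w : ℕ → ℝ := fun k => w0 / 20 ^ k with hw
  have hwpos : ∀ k, 0 < w k := fun k => by simp only [hw]; positivity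
  have hwadd : ∀ k m, 20 ^ m * w (k + m) = w k := by
    intro k m
    simp only [hw]
    rw [pow_add]
    field_simp
  have hw20 : ∀ k, 20 * w (k + 1) = w k := by
    intro k
    have := hwadd k 1
    rwa [pow_one] at this
  have hwanti : Antitone w := by
    apply antitone_nat_of_succ_le
    intro k
    have h1 := hw20 k
    have h2 := hwpos (k + 1)
    linarith
  set lab : ℕ → Fin n := fun k => Fin.ofNat n k with hlab
  have hlabval : ∀ k, (lab k).val = k % n := fun k => by simp [hlab]
  have hlabadd : ∀ k, lab (k + n) = lab k := by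
    intro k
    apply Fin.ext
    rw [hlabval, hlabval, Nat.add_mod_right]
  -- existence of scale index
  have hex : ∀ j i, 0 < a j i → ∃ k, lab k = j ∧ w k ≤ a j i := by
    intro j i h0
    obtain ⟨m, hm⟩ := pow_unbounded_of_one_lt (w0 / a j i) (by norm_num : (1:ℝ) < 20)
    refine ⟨j.val + m * n, ?_, ?_⟩
    · apply Fin.ext
      rw [hlabval, Nat.add_mul_mod_self_right, Nat.mod_eq_of_lt j.isLt]
    · simp only [hw]
      rw [div_le_iff₀ (by positivity)]
      rw [div_lt_iff₀ h0] at hm
      have h2 : (20:ℝ) ^ m ≤ 20 ^ (j.val + m * n) := by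
        apply pow_le_pow_right₀ (by norm_num)
        have : m * 1 ≤ m * n := Nat.mul_le_mul_left m hn
        omega
      have h3 : (20:ℝ) ^ m * a j i ≤ 20 ^ (j.val + m * n) * a j i :=
        mul_le_mul_of_nonneg_right h2 h0.le
      linarith
  set κ : Fin n → Fin d → ℕ := fun j i =>
    if h : 0 < a j i then Nat.find (hex j i h) else 0 with hκ
  have hκ1 : ∀ j i, 0 < a j i → lab (κ j i) = j ∧ w (κ j i) ≤ a j i := by
    intro j i h
    simp only [hκ, dif_pos h]
    exact Nat.find_spec (hex j i h)
  have hκ2 : ∀ j i, 0 < a j i → a j i ≤ 20 ^ n * w (κ j i) := by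
    intro j i h
    by_cases hc : κ j i < n
    · have h1 := hwadd 0 (κ j i)
      rw [zero_add] at h1
      have h2 : w 0 = w0 := by simp [hw]
      have h3 : (20:ℝ) ^ (κ j i) * w (κ j i) ≤ 20 ^ n * w (κ j i) := by
        apply mul_le_mul_of_nonneg_right _ (hwpos _).le
        exact pow_le_pow_right₀ (by norm_num) hc.le
      linarith [haw0 j i]
    · push Not at hc
      have h1 := hwadd (κ j i - n) n
      rw [Nat.sub_add_cancel hc] at h1
      rw [h1]
      by_contra hcon
      push Not at hcon
      have h2 : lab (κ j i - n) = j := by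
        rw [← hlabadd, Nat.sub_add_cancel hc]
        exact (hκ1 j i h).1
      have h3 : κ j i ≤ κ j i - n := by
        conv_lhs => simp only [hκ, dif_pos h]
        exact Nat.find_min' (hex j i h) ⟨h2, hcon.le⟩
      omega
  set χ : ℕ → Fin d → ℝ := fun k i =>
    if 0 < a (lab k) i ∧ κ (lab k) i = k then 1 else 0 with hχ
  set P : ℕ → Mat d := fun k => dg (U (lab k)) (χ k) with hP
  have hPpr : ∀ k, IsPr (P k) := fun k => dg_isPr (hU1 _) (by
    intro i; simp only [hχ]; split_ifs <;> simp)
  have hPo : ∀ i k, i ≠ k → lab i = lab k → P i * P k = 0 := by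
    intro i k hik hl
    simp only [hP]
    rw [hl, dg_mul (hU1 _), ← dg_zero (U (lab k))]
    congr 1
    ext m
    simp only [hχ]
    rw [hl]
    split_ifs with h1 h2
    · exact absurd (h1.2.symm.trans h2.2) hik
    · simp
    · simp
    · simp
  -- number of steps
  set N : ℕ := 1 + ∑ j, ∑ i, κ j i with hN
  have hκN : ∀ j i, κ j i < N := by
    intro j i
    have h1 : κ j i ≤ ∑ i, κ j i :=
      Finset.single_le_sum (f := fun i => κ j i) (fun i _ => Nat.zero_le _) (Finset.mem_univ i)
    have h2 : ∑ i, κ j i ≤ ∑ j, ∑ i, κ j i :=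
      Finset.single_le_sum (f := fun j => ∑ i, κ j i) (fun j _ => Nat.zero_le _)
        (Finset.mem_univ j)
    omega
  have hblock : ∀ j, ∑ k ∈ Finset.range N with lab k = j, (w k : ℂ) • P k =
      dg (U j) (fun i => if 0 < a j i then w (κ j i) else 0) := by
    intro j
    have h1 : ∀ k ∈ Finset.range N, lab k = j → (w k : ℂ) • P k =
        dg (U j) (fun i => w k * if 0 < a j i ∧ κ j i = k then 1 else 0) := by
      intro k _ hk
      simp only [hP, hχ]
      rw [dg_smul, hk]
    rw [Finset.sum_congr rfl (g := fun k => dg (U j)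
      (fun i => w k * if 0 < a j i ∧ κ j i = k then 1 else 0)) (by
        intro k hk
        rw [Finset.mem_filter] at hk
        exact h1 k hk.1 hk.2), dg_sum]
    congr 1
    ext i
    by_cases hi : 0 < a j i
    · rw [if_pos hi, Finset.sum_eq_single_of_mem (κ j i)]
      · simp [hi]
      · rw [Finset.mem_filter, Finset.mem_range]
        exact ⟨hκN j i, (hκ1 j i hi).1⟩
      · intro k _ hk
        rw [if_neg (by rintro ⟨_, h⟩; exact hk h.symm)]
        simp
    · rw [if_neg hi]
      apply Finset.sum_eq_zero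
      intro k _
      rw [if_neg (by rintro ⟨h, _⟩; exact hi h)]
      simp
  have hlow : ∀ j, (A j - ∑ k ∈ Finset.range N with lab k = j, (w k : ℂ) • P k).PosSemidef := by
    intro j
    rw [hblock j, hAU j, dg_sub]
    apply dg_posSemidef
    intro i
    split_ifs with h
    · linarith [(hκ1 j i h).2]
    · linarith [ha j i]
  have hup : ∀ j, (((20 ^ n : ℝ) : ℂ) • (∑ k ∈ Finset.range N with lab k = j,
      (w k : ℂ) • P k) - A j).PosSemidef := by
    intro j
    rw [hblock j, hAU j, dg_smul, dg_sub]
    apply dg_posSemidef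
    intro i
    split_ifs with h
    · linarith [hκ2 j i h]
    · have : a j i = 0 := le_antisymm (not_lt.1 h) (ha j i)
      rw [this]; simp
  obtain ⟨W, hW, hWo, hB⟩ := exists_meas hPpr hPo w (fun k => (hwpos k).le) hw20 N
  -- L from below
  have hL : - LL A ≤ 20 ^ n * ∑ k ∈ Finset.range N, w k * tr (P k * (1 - W (lab k))) := by
    have h1 := sqrt_lower A W hA hW hWo
    have h2 : - LL A ≤ ∑ j, tr (A j * (1 - W j)) := by
      unfold LL
      have : ∑ j, tr (A j * (1 - W j)) = ∑ j, (A j).trace.re - ∑ j, tr (A j * W j) := by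
        rw [← Finset.sum_sub_distrib]
        refine Finset.sum_congr rfl fun j _ => ?_
        rw [mul_sub, mul_one, tr_sub]
        rfl
      rw [this]
      linarith
    refine h2.trans ?_
    have h3 : ∀ j, tr (A j * (1 - W j)) ≤
        20 ^ n * ∑ k ∈ Finset.range N with lab k = j, w k * tr (P k * (1 - W (lab k))) := by
      intro j
      have h4 := tr_mul_pr_nonneg (hup j) (hW j).compl
      rw [sub_mul, tr_sub, smul_mul_assoc, tr_smul, Finset.sum_mul, tr_sum] at h4
      have h5 : ∑ k ∈ Finset.range N with lab k = j, tr ((w k : ℂ) • P k * (1 - W j)) =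
          ∑ k ∈ Finset.range N with lab k = j, w k * tr (P k * (1 - W (lab k))) := by
        refine Finset.sum_congr rfl fun k hk => ?_
        rw [Finset.mem_filter] at hk
        rw [smul_mul_assoc, tr_smul, hk.2]
      rw [h5] at h4
      linarith
    refine (Finset.sum_le_sum fun j _ => h3 j).trans ?_
    rw [← Finset.mul_sum, Finset.sum_fiberwise]
  -- R from above
  have hR : ∑ k ∈ Finset.range N, w k * ov P lab k ≤ - RR A := by
    rw [sum_ov P lab w hwanti N, ← sum_pairs P lab w N]
    unfold RR
    rw [← Finset.sum_neg_distrib]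
    refine Finset.sum_le_sum fun j _ => ?_
    rw [← Finset.sum_neg_distrib]
    refine Finset.sum_le_sum fun l _ => ?_
    have h1 := ns_bound (S := Finset.filter (fun k => lab k = j) (Finset.range N))
      (T := Finset.filter (fun k => lab k = l) (Finset.range N)) hPpr
      (by
        intro i hi k hk hik
        rw [Finset.mem_filter] at hi hk
        exact hPo i k hik (hi.2.trans hk.2.symm))
      (by
        intro i hi k hk hik
        rw [Finset.mem_filter] at hi hk
        exact hPo i k hik (hi.2.trans hk.2.symm))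
      (w := w) (fun k => (hwpos k).le) (hA j).isHermitian (hA l).isHermitian (hlow j) (hlow l)
    unfold FF
    have h2 : tr (A j + A l) = (A j + A l).trace.re := rfl
    linarith
  have hD : 0 ≤ 4 * w N * ∑ l, hs (W l - EE P lab N l) := by
    have h1 := (hwpos N).le
    have h2 : 0 ≤ ∑ l, hs (W l - EE P lab N l) := Finset.sum_nonneg fun l _ => hs_nonneg _
    positivity
  have hE : ∑ k ∈ Finset.range N, w k * tr (P k * (1 - W (lab k))) ≤ 4 * (- RR A) := by
    linarith
  have h20 : (0:ℝ) < 20 ^ n := by positivity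
  have hfin : - LL A ≤ 20 ^ n * (4 * (- RR A)) :=
    hL.trans (mul_le_mul_of_nonneg_left hE h20.le)
  linarith

end Pool.Agent.N666.TI
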