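import Pool.Agent.N666.TI.Basic

/-!
# Sequential orthogonalisation of blocks with geometric weights
-/

namespace Pool.Agent.N666.TI
open Matrix
open scoped ComplexOrder MatrixOrder

variable {d n : ℕ}

/-- sum of the blocks with label `l` and index `< N` -/
noncomputable def EE (P : ℕ → Mat d) (lab : ℕ → Fin n) (N : ℕ) (l : Fin n) : Mat d :=
  ∑ k ∈ Finset.range N with lab k = l, P k

/-- overlap of the block `N` with the earlier blocks of other labels -/
noncomputable def ov (P : ℕ → Mat d) (lab : ℕ → Fin n) (N : ℕ) : ℝ :=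
  ∑ l, if l = lab N then 0 else tr (P N * EE P lab N l)

lemma EE_succ (P : ℕ → Mat d) (lab : ℕ → Fin n) (N : ℕ) (l : Fin n) :
    EE P lab (N + 1) l = EE P lab N l + if lab N = l then P N else 0 := by
  unfold EE
  rw [Finset.range_add_one, Finset.filter_insert]
  split_ifs with h
  · rw [Finset.sum_insert (by simp), add_comm]
  · simp

section
variable {P : ℕ → Mat d} {lab : ℕ → Fin n}

lemma EE_isPr (hP : ∀ k, IsPr (P k)) (ho : ∀ i k, i ≠ k → lab i = lab k → P i * P k = 0)
    (N : ℕ) (l : Fin n) : IsPr (EE P lab N l) := by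
  unfold EE
  apply IsPr.sum
  · intro i _; exact hP i
  · intro i hi j hj hij
    rw [Finset.mem_filter] at hi hj
    exact ho i j hij (hi.2.trans hj.2.symm)

lemma EE_mul_self (ho : ∀ i k, i ≠ k → lab i = lab k → P i * P k = 0)
    (N : ℕ) : EE P lab N (lab N) * P N = 0 := by
  unfold EE
  rw [Finset.sum_mul]
  apply Finset.sum_eq_zero
  intro i hi
  rw [Finset.mem_filter, Finset.mem_range] at hi
  exact ho i N (by omega) hi.2

lemma ov_nonneg (hP : ∀ k, IsPr (P k)) (ho : ∀ i k, i ≠ k → lab i = lab k → P i * P k = 0)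
    (N : ℕ) : 0 ≤ ov P lab N := by
  unfold ov
  apply Finset.sum_nonneg
  intro l _
  split_ifs
  · exact le_rfl
  · exact tr_mul_nonneg (hP N) (EE_isPr hP ho N l)

lemma sum_hs_EE (hP : ∀ k, IsPr (P k)) (ho : ∀ i k, i ≠ k → lab i = lab k → P i * P k = 0)
    (N : ℕ) : ∑ l, hs (EE P lab N l * P N) = ov P lab N := by
  unfold ov
  refine Finset.sum_congr rfl fun l _ => ?_
  split_ifs with h
  · rw [h, EE_mul_self ho, hs_zero]
  · rw [← tr_mul_eq_hs (EE_isPr hP ho N l) (hP N), tr_comm]

theorem exists_meas (hP : ∀ k, IsPr (P k))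
    (ho : ∀ i k, i ≠ k → lab i = lab k → P i * P k = 0)
    (w : ℕ → ℝ) (hw0 : ∀ k, 0 ≤ w k) (hw : ∀ k, 20 * w (k + 1) = w k) (N : ℕ) :
    ∃ W : Fin n → Mat d, (∀ l, IsPr (W l)) ∧ (∀ l l', l ≠ l' → W l * W l' = 0) ∧
      (∑ k ∈ Finset.range N, w k * tr (P k * (1 - W (lab k)))) +
        4 * w N * ∑ l, hs (W l - EE P lab N l) ≤ 4 * ∑ k ∈ Finset.range N, w k * ov P lab k := by
  induction N with
  | zero =>
    refine ⟨fun _ => 0, fun _ => IsPr.zero, fun _ _ _ => by simp, ?_⟩
    simp [EE, hs_zero]
  | succ N ih =>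
    obtain ⟨W, hW, hWo, hB⟩ := ih
    have hZ : IsPr (∑ l, W l) := IsPr.sum _ _ (fun l _ => hW l) (fun i _ j _ h => hWo i j h)
    set Z := ∑ l, W l with hZdef
    obtain ⟨G, hG, hZG, hZGP, hGP⟩ := exists_ext_pr hZ (hP N)
    have hWZ : ∀ l, W l * Z = W l := by
      intro l
      rw [hZdef, Finset.mul_sum, Finset.sum_eq_single_of_mem l (Finset.mem_univ l)]
      · exact (hW l).idem
      · intro j _ hj; exact hWo l j (Ne.symm hj)
    have hWG : ∀ l, W l * G = 0 := by
      intro l
      rw [← hWZ l, mul_assoc, hZG, mul_zero]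
    have hGW : ∀ l, G * W l = 0 := by
      intro l
      have := congrArg conjTranspose (hWG l)
      rwa [conjTranspose_mul, hG.herm, (hW l).herm, conjTranspose_zero] at this
    set W' : Fin n → Mat d := fun l => W l + if lab N = l then G else 0 with hW'def
    have hW' : ∀ l, IsPr (W' l) := by
      intro l
      simp only [hW'def]
      split_ifs with h
      · refine ⟨by rw [conjTranspose_add, (hW l).herm, hG.herm], ?_⟩
        rw [mul_add, add_mul, add_mul, (hW l).idem, hG.idem, hWG, hGW]
        simp
      · simpa using hW l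
    have hW'o : ∀ l l', l ≠ l' → W' l * W' l' = 0 := by
      intro l l' hll
      simp only [hW'def]
      split_ifs with h1 h2 h2
      · exact absurd (h1.symm.trans h2) hll
      · rw [add_mul, add_zero, hGW, hWo l l' hll, add_zero]
      · rw [mul_add, add_zero, hWG, hWo l l' hll, add_zero]
      · simpa using hWo l l' hll
    refine ⟨W', hW', hW'o, ?_⟩
    set D := ∑ l, hs (W l - EE P lab N l) with hD
    set t := tr (Z * P N) with ht
    have hov := ov_nonneg hP ho N
    -- bound on t
    have ht1 : t ≤ 2 * ov P lab N + 2 * D := by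
      have h1 : t = ∑ l, hs (W l * P N) := by
        rw [ht, hZdef, Finset.sum_mul, tr_sum]
        exact Finset.sum_congr rfl fun l _ => tr_mul_eq_hs (hW l) (hP N)
      rw [h1, ← sum_hs_EE hP ho N, hD, Finset.mul_sum, Finset.mul_sum, ← Finset.sum_add_distrib]
      refine Finset.sum_le_sum fun l _ => ?_
      have h2 : W l * P N = EE P lab N l * P N + (W l - EE P lab N l) * P N := by
        rw [sub_mul]; abel
      rw [h2]
      refine (hs_add_le _ _).trans ?_
      have h3 := hs_mul_pr_le (W l - EE P lab N l) (hP N)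
      linarith
    -- new deviation
    have hD' : ∑ l, hs (W' l - EE P lab (N + 1) l) ≤ 2 * D + 4 * t := by
      have h1 : ∀ l, hs (W' l - EE P lab (N + 1) l) ≤
          2 * hs (W l - EE P lab N l) + if lab N = l then 2 * hs (G - P N) else 0 := by
        intro l
        rw [EE_succ]
        simp only [hW'def]
        split_ifs with h
        · have : W l + G - (EE P lab N l + P N) = (W l - EE P lab N l) + (G - P N) := by abel
          rw [this]
          exact hs_add_le _ _
        · have h4 := hs_nonneg (W l - EE P lab N l)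
          simp only [add_zero]
          linarith
      calc ∑ l, hs (W' l - EE P lab (N + 1) l) ≤ ∑ l, (2 * hs (W l - EE P lab N l) +
              if lab N = l then 2 * hs (G - P N) else 0) := Finset.sum_le_sum fun l _ => h1 l
        _ = 2 * D + 2 * hs (G - P N) := by
            rw [Finset.sum_add_distrib, ← Finset.mul_sum]
            simp [hD]
        _ ≤ 2 * D + 4 * t := by linarith
    -- error of old blocks
    have hold : ∀ k ∈ Finset.range N, w k * tr (P k * (1 - W' (lab k))) ≤
        w k * tr (P k * (1 - W (lab k))) := by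
      intro k _
      apply mul_le_mul_of_nonneg_left _ (hw0 k)
      simp only [hW'def]
      split_ifs with h
      · rw [mul_sub, mul_sub, mul_add, tr_sub, tr_sub, tr_add]
        have := tr_mul_nonneg (hP k) hG
        linarith
      · simp
    have hnew : tr (P N * (1 - W' (lab N))) ≤ t := by
      simp only [hW'def, if_true]
      rw [mul_sub, mul_add, mul_one, tr_sub, tr_add]
      have h1 := tr_mul_nonneg (hP N) (hW (lab N))
      have h2 : tr (P N) = t + tr (P N * G) := by
        conv_lhs => rw [← hZGP]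
        rw [add_mul, tr_add, ht, tr_comm G]
      linarith
    rw [Finset.sum_range_succ, Finset.sum_range_succ]
    have hs1 := Finset.sum_le_sum hold
    have hwN := hw N
    have hwN0 := hw0 N
    have hD0 : 0 ≤ D := Finset.sum_nonneg fun l _ => hs_nonneg _
    have e1 : w N * tr (P N * (1 - W' (lab N))) ≤ w N * (2 * ov P lab N + 2 * D) :=
      mul_le_mul_of_nonneg_left (hnew.trans ht1) hwN0
    have hw1 := hw0 (N + 1)
    have e2 : 4 * w (N + 1) * ∑ l, hs (W' l - EE P lab (N + 1) l) ≤
        4 * w (N + 1) * (2 * D + 4 * (2 * ov P lab N + 2 * D)) := by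
      apply mul_le_mul_of_nonneg_left _ (by linarith)
      linarith
    have e3 : 4 * w (N + 1) * (2 * D + 4 * (2 * ov P lab N + 2 * D)) =
        w N * (2 * D + 8 / 5 * ov P lab N) := by
      rw [← hwN]; ring
    have e4 : w N * (8 / 5 * ov P lab N) ≤ w N * (2 * ov P lab N) := by
      apply mul_le_mul_of_nonneg_left _ hwN0
      linarith
    nlinarith [hs1, e1, e2, e3, e4, hB]

end

end Pool.Agent.N666.TI
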